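import Pool.Agent.Helper9.UP.StN

/-!
# Project UP, module PD: the sum of `log p / p` over the prime factors of `n`
-/

set_option autoImplicit false

noncomputable section

namespace Pool.Agent.Helper29.UP

open Finset
open Pool.Agent.Helper9.UP

theorem PD_log_le_sqrt {x : ℝ} (hx : 0 < x) : Real.log x ≤ √x := by
  have hs : 0 < √x := Real.sqrt_pos.2 hx
  have h1 : Real.log (√x / 2) ≤ √x / 2 - 1 := Real.log_le_sub_one_of_pos (by positivity)
  rw [Real.log_div hs.ne' (by norm_num), Real.log_sqrt hx.le] at h1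
  have h2 := Real.log_two_lt_d9
  linarith

theorem PD_sum (s : Finset ℕ) (hs : ∀ x ∈ s, 1 ≤ x) :
    ∑ x ∈ s, 1 / √(x : ℝ) ≤ 2 * √(s.card : ℝ) := by
  induction s using Finset.induction_on_max with
  | empty => simp
  | insert a s ha ih =>
    have has : a ∉ s := fun h => lt_irrefl a (ha a h)
    rw [sum_insert has, card_insert_of_notMem has]
    have ih' := ih (fun x hx => hs x (mem_insert_of_mem hx))
    have hcard : s.card + 1 ≤ a := by
      have hsub : s ⊆ Ico 1 a := fun x hx =>
        Finset.mem_Ico.2 ⟨hs x (mem_insert_of_mem hx), ha x hx⟩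
      have := card_le_card hsub
      rw [Nat.card_Ico] at this
      have ha1 := hs a (mem_insert_self a s)
      omega
    have hcard' : (s.card : ℝ) + 1 ≤ a := by exact_mod_cast hcard
    have h1 : 1 / √(a : ℝ) ≤ 1 / √((s.card : ℝ) + 1) :=
      one_div_le_one_div_of_le (Real.sqrt_pos.2 (by positivity)) (Real.sqrt_le_sqrt hcard')
    have hA : 0 ≤ √(s.card : ℝ) := Real.sqrt_nonneg _
    have hB : 0 < √((s.card : ℝ) + 1) := Real.sqrt_pos.2 (by positivity)
    have hAB : √(s.card : ℝ) ≤ √((s.card : ℝ) + 1) := Real.sqrt_le_sqrt (by linarith)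
    have hA2 : √(s.card : ℝ) ^ 2 = s.card := Real.sq_sqrt (by positivity)
    have hB2 : √((s.card : ℝ) + 1) ^ 2 = s.card + 1 := Real.sq_sqrt (by positivity)
    have h2 : 1 / √((s.card : ℝ) + 1) ≤ 2 * (√((s.card : ℝ) + 1) - √(s.card : ℝ)) := by
      rw [div_le_iff₀ hB]
      nlinarith
    push_cast
    linarith

theorem hPD : StPD := by
  intro n hn
  have hb : ∑ p ∈ n.primeFactors, Real.log p / p ≤ ∑ p ∈ n.primeFactors, 1 / √(p : ℝ) := by
    apply sum_le_sum
    intro p hp
    have hp1 := (Nat.prime_of_mem_primeFactors hp).pos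
    have hp' : (0 : ℝ) < p := by exact_mod_cast hp1
    have hs : 0 < √(p : ℝ) := Real.sqrt_pos.2 hp'
    rw [div_le_div_iff₀ hp' hs, one_mul]
    calc Real.log p * √(p : ℝ) ≤ √(p : ℝ) * √(p : ℝ) :=
          mul_le_mul_of_nonneg_right (PD_log_le_sqrt hp') hs.le
      _ = p := Real.mul_self_sqrt hp'.le
  have hc := PD_sum n.primeFactors
    (fun x hx => (Nat.prime_of_mem_primeFactors hx).one_lt.le)
  have h2 : 2 ^ n.primeFactors.card ≤ n := by
    calc 2 ^ n.primeFactors.card = ∏ _p ∈ n.primeFactors, 2 := by rw [prod_const]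
      _ ≤ ∏ p ∈ n.primeFactors, p :=
          prod_le_prod (fun _ _ => by norm_num)
            (fun p hp => (Nat.prime_of_mem_primeFactors hp).two_le)
      _ ≤ n := Nat.le_of_dvd hn (Nat.prod_primeFactors_dvd n)
  have h3 : (n.primeFactors.card : ℝ) * Real.log 2 ≤ Real.log n := by
    have h4 : ((2 : ℝ)) ^ n.primeFactors.card ≤ n := by exact_mod_cast h2
    have h5 := Real.log_le_log (by positivity) h4
    rwa [Real.log_pow] at h5
  have h4 := Real.log_two_gt_d9
  have h5 : (0 : ℝ) ≤ n.primeFactors.card := by positivity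
  have h6 : 4 * (n.primeFactors.card : ℝ) ≤ 9 * Real.log n := by nlinarith
  have h7 : 2 * √(n.primeFactors.card : ℝ) ≤ 3 * √(Real.log n) := by
    have e1 : 2 * √(n.primeFactors.card : ℝ) = √(4 * (n.primeFactors.card : ℝ)) := by
      rw [Real.sqrt_mul (by norm_num)]
      congr 1
      rw [show (4 : ℝ) = 2 ^ 2 by norm_num, Real.sqrt_sq (by norm_num)]
    have e2 : 3 * √(Real.log n) = √(9 * Real.log n) := by
      rw [Real.sqrt_mul (by norm_num)]
      congr 1
      rw [show (9 : ℝ) = 3 ^ 2 by norm_num, Real.sqrt_sq (by norm_num)]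
    rw [e1, e2]
    exact Real.sqrt_le_sqrt h6
  linarith

end Pool.Agent.Helper29.UP
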